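import Pool.Agent.MWI.StmtsE

/-!
# Squad MWI, row IM1: a word which occurs twice in the main block is one name
-/

set_option autoImplicit false

namespace Pool.Agent.MWI.H36

open Pool.Agent.Helper14_MV Pool.Agent.Helper2_MV Pool.Agent.MWF Pool.Agent.MWI

theorem idx_nodup (m : ℕ) : (idx m).Nodup := by
  unfold idx
  rw [List.nodup_flatMap]
  refine ⟨fun k _ => ?_, ?_⟩
  · unfold ci
    exact List.Nodup.map (fun a b h => by
      have h' : 7 * a + k = 7 * b + k := h
      omega) List.nodup_range
  · refine List.Pairwise.imp_of_mem (R := fun a b => a ≠ b) ?_ List.nodup_range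
    intro k k' hk hk' hne
    have h1 := List.mem_range.1 hk
    have h2 := List.mem_range.1 hk'
    change List.Disjoint (ci m k) (ci m k')
    intro x hx hx'
    unfold ci at hx hx'
    obtain ⟨i, _, hi⟩ := List.mem_map.1 hx
    obtain ⟨i', _, hi'⟩ := List.mem_map.1 hx'
    omega

theorem zz_nodup (m : ℕ) : (zz (idx m)).Nodup := by
  unfold zz
  exact List.Nodup.map (fun a b h => by
    have h' : 3 * a + 2 = 3 * b + 2 := h
    omega) (idx_nodup m)

/-- a letter with two occurrences is a name -/
theorem two_name {M : List ℕ} {m : ℕ} (hM : M.Perm (0 :: 0 :: 3 :: 3 :: 6 :: 6 :: zz (idx m)))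
    {c : ℕ} (hc : 2 ≤ M.count c) : c = 0 ∨ c = 3 ∨ c = 6 := by
  by_contra hcon
  rw [not_or, not_or] at hcon
  obtain ⟨h0, h3, h6⟩ := hcon
  rw [hM.count_eq, List.count_cons_of_ne (Ne.symm h0), List.count_cons_of_ne (Ne.symm h0),
    List.count_cons_of_ne (Ne.symm h3), List.count_cons_of_ne (Ne.symm h3),
    List.count_cons_of_ne (Ne.symm h6), List.count_cons_of_ne (Ne.symm h6)] at hc
  have := List.nodup_iff_count_le_one.1 (zz_nodup m) c
  omega

theorem im1 (hSEP : SepStmt) : Im1Stmt := by
  intro P Q m s e w M Y hm hF a g b c hg hM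
  have hname : ∀ x ∈ g, x = 0 ∨ x = 3 ∨ x = 6 := by
    intro x hx
    refine two_name hF.pM ?_
    have h1 : 1 ≤ g.count x := List.count_pos_iff.2 hx
    rw [hM]
    simp only [List.count_append]
    omega
  rcases g with _ | ⟨x, g⟩
  · exact absurd rfl hg
  rcases g with _ | ⟨y, g⟩
  · rcases hname x List.mem_cons_self with h | h | h
    · exact ⟨0, by norm_num, by rw [h]⟩
    · exact ⟨1, by norm_num, by rw [h]⟩
    · exact ⟨2, by norm_num, by rw [h]⟩
  · exfalso
    obtain ⟨h1, -⟩ := hSEP P Q m s e w M Y hm hF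
    refine h1 a (g ++ (b ++ ((x :: y :: g) ++ c))) x y ?_ ⟨?_, ?_⟩
    · rw [hM]
      simp
    · rcases hname x List.mem_cons_self with h | h | h <;> rw [h]
    · rcases hname y (List.mem_cons_of_mem _ List.mem_cons_self) with h | h | h <;> rw [h]

end Pool.Agent.MWI.H36
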